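import Mathlib

/-!
# MRDP: primitive recursion
-/

set_option autoImplicit false

namespace Pool.Agent.Helper55.MR

open Nat Dioph

/-- the bounded universal quantifier -/
def BallStmt : Prop := ∀ (α : Type) (S : Set (Option α → ℕ)), Dioph S → ∀ f : (α → ℕ) → ℕ,
  DiophFn f → Dioph {v : α → ℕ | ∀ k < f v, Option.elim' k v ∈ S}

/-- the remainder function of Goedel -/
theorem beta_dioph {α : Type} {a b i : (α → ℕ) → ℕ} (da : DiophFn a) (db : DiophFn b)
    (di : DiophFn i) : DiophFn fun v => a v % ((i v + 1) * b v + 1) :=
  mod_dioph da (add_dioph (mul_dioph (add_dioph di (const_dioph 1)) db) (const_dioph 1))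

/-- existence of the two parameters -/
theorem exists_beta (h : ℕ → ℕ) (y : ℕ) : ∃ a b : ℕ, ∀ i ≤ y, a % ((i + 1) * b + 1) = h i := by
  refine ⟨(Nat.unbeta ((List.range (y + 1)).map h)).unpair.1,
    (Nat.unbeta ((List.range (y + 1)).map h)).unpair.2, fun i hi => ?_⟩
  have h1 := Nat.beta_unbeta_coe ((List.range (y + 1)).map h)
    ⟨i, by simpa using Nat.lt_succ_of_le hi⟩
  unfold Nat.beta at h1
  rw [h1]
  simp

/-- the value of a primitive recursion -/
theorem prec_iff {F : ℕ → ℕ} {G : ℕ → ℕ → ℕ} (hF : ∀ k, F (k + 1) = G k (F k)) (y z : ℕ) :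
    F y = z ↔ ∃ b a : ℕ, a % ((0 + 1) * b + 1) = F 0 ∧ a % ((y + 1) * b + 1) = z ∧
      ∀ k < y, ∃ r, r = a % ((k + 1) * b + 1) ∧ a % ((k + 1 + 1) * b + 1) = G k r := by
  constructor
  · rintro rfl
    obtain ⟨a, b, h⟩ := exists_beta F y
    refine ⟨b, a, h 0 (Nat.zero_le _), h y le_rfl, fun k hk => ⟨_, rfl, ?_⟩⟩
    rw [h (k + 1) hk, h k hk.le, hF]
  · rintro ⟨b, a, h1, h2, h3⟩
    have h4 : ∀ k ≤ y, a % ((k + 1) * b + 1) = F k := by
      intro k hk
      induction k with
      | zero => exact h1
      | succ k ih =>
        obtain ⟨r, hr, h5⟩ := h3 k hk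
        rw [ih (by omega)] at hr
        rw [h5, hr, hF]
    rw [← h2, h4 y le_rfl]

/-- the arguments of the step -/
def idx (n : ℕ) : Fin (n + 2) → Option (Option (Option (Option (Option (Fin (n + 1)))))) :=
  Fin.cons (some none) (Fin.cons none fun j : Fin n => some (some (some (some (some j.succ)))))

/-- **primitive recursion** -/
theorem prec_dioph (hB : BallStmt) {n : ℕ} {f : List.Vector ℕ n → ℕ}
    {g : List.Vector ℕ (n + 2) → ℕ}
    (hf : DiophFn fun v : Fin n → ℕ => f (List.Vector.ofFn v))
    (hg : DiophFn fun v : Fin (n + 2) → ℕ => g (List.Vector.ofFn v)) :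
    DiophFn fun v : Fin (n + 1) → ℕ => (List.Vector.ofFn v).head.rec
      (f (List.Vector.ofFn v).tail) fun y IH => g (y ::ᵥ IH ::ᵥ (List.Vector.ofFn v).tail) := by
  unfold DiophFn
  -- the coordinates: `none` is `a`, `some none` is `b`, then the value and the arguments
  have h1 : Dioph {w : Option (Option (Option (Fin (n + 1)))) → ℕ |
      w none % ((0 + 1) * w (some none) + 1) =
        f (List.Vector.ofFn fun i : Fin n => w (some (some (some i.succ))))} :=
    eq_dioph (beta_dioph (proj_dioph none) (proj_dioph (some none)) (const_dioph 0))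
      (reindex_diophFn (fun i : Fin n => some (some (some i.succ))) hf)
  have h2 : Dioph {w : Option (Option (Option (Fin (n + 1)))) → ℕ |
      w none % ((w (some (some (some 0))) + 1) * w (some none) + 1) = w (some (some none))} :=
    eq_dioph (beta_dioph (proj_dioph none) (proj_dioph (some none))
      (proj_dioph (some (some (some 0))))) (proj_dioph (some (some none)))
  -- one step, with the coordinates `r`, `k` in front
  have h3 : Dioph {w : Option (Option (Option (Option (Option (Fin (n + 1)))))) → ℕ |
      w none = w (some (some none)) % ((w (some none) + 1) * w (some (some (some none))) + 1) ∧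
      w (some (some none)) % ((w (some none) + 1 + 1) * w (some (some (some none))) + 1) =
        g (List.Vector.ofFn fun i : Fin (n + 2) => w (idx n i))} := by
    refine inter (eq_dioph (proj_dioph none) (beta_dioph (proj_dioph (some (some none)))
      (proj_dioph (some (some (some none)))) (proj_dioph (some none)))) ?_
    refine eq_dioph (beta_dioph (proj_dioph (some (some none)))
      (proj_dioph (some (some (some none)))) (add_dioph (proj_dioph (some none)) (const_dioph 1))) ?_
    exact reindex_diophFn (idx n) hg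
  have h4 := hB _ _ (ex1_dioph h3) (fun w => w (some (some (some 0))))
    (proj_dioph (some (some (some 0))))
  refine Dioph.ext (ex1_dioph (ex1_dioph (inter h1 (inter h2 h4)))) (fun v => ?_)
  -- the meaning
  set x : List.Vector ℕ n := (List.Vector.ofFn (v ∘ some)).tail with hx
  have hx' : x = List.Vector.ofFn (fun i : Fin n => v (some i.succ)) := by
    rw [hx, List.Vector.tail_ofFn]
    rfl
  have hy : (List.Vector.ofFn (v ∘ some)).head = v (some 0) := by
    rw [List.Vector.head_ofFn]
    rfl
  set F : ℕ → ℕ := fun k => k.rec (f x) fun y IH => g (y ::ᵥ IH ::ᵥ x) with hF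
  have key := prec_iff (F := F) (G := fun k r => g (k ::ᵥ r ::ᵥ x)) (fun k => rfl)
    (v (some 0)) (v none)
  have e0 : v ∈ {v : Option (Fin (n + 1)) → ℕ | (List.Vector.ofFn (v ∘ some)).head.rec
      (f (List.Vector.ofFn (v ∘ some)).tail) (fun y IH =>
        g (y ::ᵥ IH ::ᵥ (List.Vector.ofFn (v ∘ some)).tail)) = v none} ↔
      F (v (some 0)) = v none := by
    rw [Set.mem_ofPred_eq, hy]
  refine Iff.trans ?_ (key.symm.trans e0.symm)
  refine exists_congr (fun b => exists_congr (fun a => ?_))
  refine and_congr ?_ (and_congr Iff.rfl ?_)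
  · show _ = f (List.Vector.ofFn fun i : Fin n => v (some i.succ)) ↔ _
    rw [← hx']
    rfl
  · refine forall_congr' (fun k => forall_congr' (fun _ => exists_congr (fun r => ?_)))
    refine and_congr Iff.rfl ?_
    have e1 : (List.Vector.ofFn fun i : Fin (n + 2) =>
        (Option.elim' r (Option.elim' k (Option.elim' a (Option.elim' b v))) :
          Option (Option (Option (Option (Option (Fin (n + 1)))))) → ℕ) (idx n i)) =
        k ::ᵥ r ::ᵥ x := by
      rw [hx']
      refine List.Vector.ext (fun i => ?_)
      rw [List.Vector.get_ofFn]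
      refine Fin.cases ?_ (fun i => ?_) i
      · rfl
      · refine Fin.cases ?_ (fun i => ?_) i
        · rfl
        · have e2 : idx n i.succ.succ = some (some (some (some (some i.succ)))) := rfl
          rw [e2]
          simp
    show _ = g _ ↔ _ = g _
    rw [← e1]
    rfl

end Pool.Agent.Helper55.MR
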