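import Pool.Agent.Helper57.MR.Comp
import Pool.Agent.Helper55.MR.Prec
import Pool.Agent.Helper89.MR.Fin

/-!
# MRDP: recursively enumerable sets are Diophantine
-/

set_option autoImplicit false

namespace Pool.Agent.Helper55.MR

open Nat Dioph

/-- primitive recursive functions are Diophantine -/
theorem primrec_dioph_of (hB : BallStmt) {n : ℕ} {f : List.Vector ℕ n → ℕ}
    (hf : Nat.Primrec' f) : DiophFn fun v : Fin n → ℕ => f (List.Vector.ofFn v) := by
  induction hf with
  | zero => exact Pool.Agent.Helper57.MR.zero_clause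
  | succ => exact Pool.Agent.Helper57.MR.succ_clause
  | get i => exact Pool.Agent.Helper57.MR.get_clause i
  | comp g _ _ ihf ihg => exact Pool.Agent.Helper57.MR.comp_clause g ihf ihg
  | prec _ _ ihf ihg => exact prec_dioph hB ihf ihg

/-- recursively enumerable sets are projections of primitive recursive ones -/
theorem re_primrec {p : ℕ → Prop} (hp : REPred p) : ∃ h : List.Vector ℕ 2 → ℕ,
    Nat.Primrec' h ∧ ∀ a, p a ↔ ∃ k, h (k ::ᵥ a ::ᵥ List.Vector.nil) = 1 := by
  have h1 : Nat.Partrec fun a : ℕ => (Part.assert (p a) fun _ => Part.some 0) := by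
    have h2 : Partrec fun a : ℕ => (Part.assert (p a) fun _ => Part.some (0 : ℕ)) := by
      have h3 := hp.map (Computable.const (0 : ℕ)).to₂
      refine h3.of_eq (fun a => ?_)
      refine Part.ext (fun b => ?_)
      simp [eq_comm]
    exact Partrec.nat_iff.1 h2
  obtain ⟨c, hc⟩ := Nat.Partrec.Code.exists_code.1 h1
  have h4 : Primrec fun v : List.Vector ℕ 2 =>
      if (Nat.Partrec.Code.evaln v.head c v.tail.head).isSome then 1 else 0 := by
    have h5 : Primrec fun v : List.Vector ℕ 2 =>
        (Nat.Partrec.Code.evaln v.head c v.tail.head).isSome := by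
      refine Primrec.option_isSome.comp (Nat.Partrec.Code.primrec_evaln.comp
        (Primrec.pair (Primrec.pair Primrec.vector_head (Primrec.const c))
          (Primrec.vector_head.comp Primrec.vector_tail)))
    exact Primrec.ite (Primrec.eq.comp h5 (Primrec.const true)) (Primrec.const 1) (Primrec.const 0)
  refine ⟨_, Nat.Primrec'.prim_iff.2 h4, fun a => ?_⟩
  have h6 : p a ↔ ∃ x, x ∈ Nat.Partrec.Code.eval c a := by
    rw [hc]
    simp
  rw [h6]
  constructor
  · rintro ⟨x, hx⟩
    obtain ⟨k, hk⟩ := Nat.Partrec.Code.evaln_complete.1 hx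
    refine ⟨k, ?_⟩
    rw [if_pos]
    exact Option.isSome_iff_exists.2 ⟨x, hk⟩
  · rintro ⟨k, hk⟩
    have h7 : (Nat.Partrec.Code.evaln k c a).isSome = true := by
      by_contra hc'
      have h8 : (if (Nat.Partrec.Code.evaln k c a).isSome = true then 1 else 0) = 1 := hk
      rw [if_neg hc'] at h8
      omega
    obtain ⟨x, hx⟩ := Option.isSome_iff_exists.1 h7
    exact ⟨x, Nat.Partrec.Code.evaln_sound hx⟩

/-- **recursively enumerable sets are Diophantine** -/
theorem re_dioph_of (hB : BallStmt) {p : ℕ → Prop} (hp : REPred p) :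
    ∃ (n : ℕ) (P : Poly (Option (Fin n))), ∀ a, p a ↔
      ∃ t : Fin n → ℕ, P (Option.elim' a t) = 0 := by
  obtain ⟨h, hh, hpa⟩ := re_primrec hp
  have h1 : Dioph {v : Fin 2 → ℕ | h (List.Vector.ofFn v) = 1} :=
    eq_dioph (primrec_dioph_of hB hh) (const_dioph 1)
  have h2 : Dioph {w : Option Unit → ℕ |
      (fun i => Fin.cases (w none) (fun _ => w (some ())) i : Fin 2 → ℕ) ∈
        {v : Fin 2 → ℕ | h (List.Vector.ofFn v) = 1}} := by
    refine Pool.Agent.Helper57.MR.comp_fin h1 (g := fun i w =>
      Fin.cases (w none) (fun _ => w (some ())) i) (fun i => ?_)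
    refine Fin.cases ?_ (fun i => ?_) i
    · exact proj_dioph none
    · exact proj_dioph (some ())
  have h3 : Dioph {v : Unit → ℕ | p (v ())} := by
    refine Dioph.ext (ex1_dioph h2) (fun v => ?_)
    show (∃ k, h (List.Vector.ofFn (fun i => Fin.cases k (fun _ => v ()) i : Fin 2 → ℕ)) = 1) ↔
      p (v ())
    rw [hpa (v ())]
    rfl
  obtain ⟨n, P, hP⟩ := Pool.Agent.Helper89.MR.exists_fin h3
  refine ⟨n, P.map (Sum.elim (fun _ => none) some), fun a => ?_⟩
  have h4 := hP (fun _ => a)
  refine Iff.trans h4 (exists_congr fun t => ?_)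
  rw [Poly.map_apply]
  have e : (Option.elim' a t ∘ Sum.elim (fun _ : Unit => none) some) =
      Sum.elim (fun _ => a) t := by
    funext s
    rcases s with s | s <;> rfl
  rw [e]

end Pool.Agent.Helper55.MR
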